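import Pool.Agent.H74.PPADTrans

/-!
# Symmetric equilibria of symmetric games of rank two are PPAD-hard to compute

Every search problem that reduces in polynomial time to End-of-the-Line reduces in polynomial time
to the problem `SymNE r` of the problem file, for every `r ≥ 2`. Polynomial time is the notion of
the prelude (`N68a2faeb.IsPolyTime`, by Turing machines of type `TM2` of Mathlib), with the binary
encodings of the prelude for natural numbers, rational numbers, pairs and lists.
-/

set_option autoImplicit false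

namespace Pool.Agent.Results.MP_226422_lc.PPADHard

open N68a2faeb

/-- A search problem: types of instances and of solutions, with binary encodings, the set of valid
instances, and the relation `rel x y` saying that `y` is a solution of the instance `x`. -/
structure SearchProblem : Type 1 where
  /-- instances -/
  Inst : Type
  /-- solutions -/
  Sol : Type
  /-- binary encoding of instances -/
  [encInst : N487b59b3 Inst]
  /-- binary encoding of solutions -/
  [encSol : N487b59b3 Sol]
  /-- valid instances -/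
  valid : Inst → Prop
  /-- `rel x y`: `y` solves `x` -/
  rel : Inst → Sol → Prop

attribute [instance] SearchProblem.encInst SearchProblem.encSol

/-- `P` reduces to `Q`: a polynomial time map `f` sends valid instances of `P` to valid instances of
`Q`, and a polynomial time map `g` sends every solution `y` of `f x` to a solution `g (x, y)` of
`x`. -/
def Reduces (P Q : SearchProblem) : Prop :=
  ∃ (f : P.Inst → Q.Inst) (g : P.Inst × Q.Sol → P.Sol), IsPolyTime f ∧ IsPolyTime g ∧
    ∀ x, P.valid x → Q.valid (f x) ∧ ∀ y, Q.rel (f x) y → P.rel x (g (x, y))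

/-! ### End-of-the-Line and PPAD-hardness -/

/-- A gate `(t, i, j)`: the AND (`t = 0`) or the OR (`t = 1`) of the wires `i` and `j`, or
(`t ≥ 2`) the NOT of wire `i`. -/
abbrev Gate := ℕ × ℕ × ℕ

/-- A Boolean circuit: the list of its gates and the list of its output wires. For `n` inputs the
wires `0, …, n - 1` are the inputs, and wire `n + k` is the output of gate number `k`. -/
abbrev Circuit := List Gate × List ℕ

/-- The value of a gate, for wires with values `w`. -/
def gateValue (w : List Bool) (g : Gate) : Bool :=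
  if g.1 = 0 then w.getD g.2.1 false && w.getD g.2.2 false
  else if g.1 = 1 then w.getD g.2.1 false || w.getD g.2.2 false
  else !(w.getD g.2.1 false)

/-- The values of all wires, for input `v`: the gates are evaluated one after the other. -/
def wires (gs : List Gate) (v : List Bool) : List Bool :=
  gs.foldl (fun w g => w ++ [gateValue w g]) v

/-- The output of the circuit `C` on input `v`. -/
def output (C : Circuit) (v : List Bool) : List Bool :=
  C.2.map fun i => (wires C.1 v).getD i false

/-- `C` is a circuit with `n` inputs and `n` outputs: output wires exist, and the inputs of each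
gate are earlier wires. -/
def WellFormed (n : ℕ) (C : Circuit) : Prop :=
  C.2.length = n ∧ (∀ i ∈ C.2, i < n + C.1.length) ∧
    ∀ k < C.1.length, (C.1.getD k (0, 0, 0)).2.1 < n + k ∧ (C.1.getD k (0, 0, 0)).2.2 < n + k

/-- End-of-the-Line: given circuits `S`, `P` with `n` inputs and outputs such that
`P (0ⁿ) = 0ⁿ ≠ S (0ⁿ)`, find `v` with `P (S v) ≠ v`, or `S (P v) ≠ v` and `v ≠ 0ⁿ`. -/
def EndOfLine : SearchProblem where
  Inst := Circuit × Circuit
  Sol := List Bool
  valid x := WellFormed x.1.2.length x.1 ∧ WellFormed x.1.2.length x.2 ∧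
    output x.2 (List.replicate x.1.2.length false) = List.replicate x.1.2.length false ∧
    output x.1 (List.replicate x.1.2.length false) ≠ List.replicate x.1.2.length false
  rel x v := v.length = x.1.2.length ∧
    (output x.2 (output x.1 v) ≠ v ∨
      (output x.1 (output x.2 v) ≠ v ∧ v ≠ List.replicate x.1.2.length false))

/-- `Q` is PPAD-hard: every search problem that reduces to End-of-the-Line (that is, every problem
of the class PPAD) reduces to `Q`. -/
def PPADHard (Q : SearchProblem) : Prop := ∀ P : SearchProblem, Reduces P EndOfLine → Reduces P Q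

/-! ### Symmetric Nash equilibria -/

/-- `(x, y)` is a Nash equilibrium of the bimatrix game `(A, B)`. -/
def IsNE {m : ℕ} (A B : Matrix (Fin m) (Fin m) ℝ) (x y : Fin m → ℝ) : Prop :=
  x ∈ stdSimplex ℝ (Fin m) ∧ y ∈ stdSimplex ℝ (Fin m) ∧
    (∀ x' ∈ stdSimplex ℝ (Fin m), x' ⬝ᵥ A.mulVec y ≤ x ⬝ᵥ A.mulVec y) ∧
    (∀ y' ∈ stdSimplex ℝ (Fin m), x ⬝ᵥ B.mulVec y' ≤ x ⬝ᵥ B.mulVec y)

/-- The matrix with rows `A`. -/
noncomputable def matrixOf (A : List (List ℚ)) : Matrix (Fin A.length) (Fin A.length) ℝ :=
  fun i j => (((A.getD i.1 []).getD j.1 0 : ℚ) : ℝ)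

/-- The vector with entries `y`. -/
noncomputable def vectorOf (m : ℕ) (y : List ℚ) : Fin m → ℝ := fun i => ((y.getD i.1 0 : ℚ) : ℝ)

/-- `SymNE r`: given a square rational matrix `A` with `rank (A + Aᵀ) ≤ r`, find a symmetric Nash
equilibrium of `(A, Aᵀ)`. -/
noncomputable def SymNE (r : ℕ) : SearchProblem where
  Inst := List (List ℚ)
  Sol := List ℚ
  valid A := 0 < A.length ∧ (∀ row ∈ A, row.length = A.length) ∧
    (matrixOf A + (matrixOf A).transpose).rank ≤ r
  rel A y := y.length = A.length ∧
    IsNE (matrixOf A) (matrixOf A).transpose (vectorOf A.length y) (vectorOf A.length y)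

/-! ### The result -/

/-- Reductions compose. -/
theorem Reduces.trans {P Q R : SearchProblem} (h₁ : Reduces P Q) (h₂ : Reduces Q R) :
    Reduces P R := by
  obtain ⟨f₁, g₁, hf₁, hg₁, h₁⟩ := h₁
  obtain ⟨f₂, g₂, hf₂, hg₂, h₂⟩ := h₂
  refine ⟨fun x => f₂ (f₁ x), fun p => g₁ (p.1, g₂ (f₁ p.1, p.2)),
    Pool.Agent.H74.PPAD.isPolyTime_comp hf₂ hf₁, Pool.Agent.H74.PPAD.isPolyTime_back hf₁ hg₁ hg₂,
    fun x hx => ?_⟩
  obtain ⟨a, b⟩ := h₁ x hx
  obtain ⟨c, d⟩ := h₂ _ a
  exact ⟨c, fun y hy => b _ (d y hy)⟩

/-- End-of-the-Line reduces to `SymNE r` for every `r ≥ 2`. -/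
theorem endOfLine_reduces (r : ℕ) (hr : 2 ≤ r) : Reduces EndOfLine (SymNE r) := by
  refine ⟨Pool.Agent.H74.PPAD.fwd, Pool.Agent.H74.PPAD.bwd, Pool.Agent.H74.PPAD.isPolyTime_fwd,
    Pool.Agent.H74.PPAD.isPolyTime_bwd, ?_⟩
  rintro x ⟨hS, hP, h0, h1⟩
  obtain ⟨⟨a1, a2⟩, a3, a4⟩ := Pool.Agent.H74.PPAD.fwd_correct x hS hP h0 h1
  exact ⟨⟨a1, a2, a3.trans hr⟩, fun y hy => a4 y hy.2⟩

/-- **`SymNE r` is PPAD-hard for every `r ≥ 2`.** -/
theorem result : ∀ r : ℕ, 2 ≤ r → PPADHard (SymNE r) :=
  fun r hr _ hP => hP.trans (endOfLine_reduces r hr)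

end Pool.Agent.Results.MP_226422_lc.PPADHard
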